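import Mathlib

/-!
# The diameter of `k`-conservative graphs

The largest diameter `D(k)` of a connected `k`-conservative graph is `2`, `4`, `6` for
`k = 2, 3, 4` and `3 k - 7` for `k ≥ 5`.
-/

set_option autoImplicit false

namespace Pool.Agent.Results.MP_2cf482_co.Diameter

open Finset

/-- The set `A` dominates the vertex `v`. -/
def Dom {V : Type} (G : SimpleGraph V) (A : Set V) (v : V) : Prop := ∃ a ∈ A, a = v ∨ G.Adj a v

/-- The domination number. -/
noncomputable def domNum {V : Type} (G : SimpleGraph V) : ℕ :=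
  sInf {n : ℕ | ∃ D : Finset V, D.card = n ∧ ∀ v, Dom G D v}

/-- `A` dominates every vertex of `B` and no vertex outside `B`. -/
def PreciselyDominates {V : Type} (G : SimpleGraph V) (A B : Set V) : Prop :=
  (∀ v ∈ B, Dom G A v) ∧ ∀ v ∉ B, ¬ Dom G A v

/-- `G` is `k`-conservative: `γ(G) = k - 1`, and for all distinct non-adjacent `x`, `y` there is a
set `S` of `k - 2` vertices such that `S ∪ {x}` precisely dominates `V(G) \ {y}` or `S ∪ {y}`
precisely dominates `V(G) \ {x}`. -/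
def IsConservative {V : Type} (k : ℕ) (G : SimpleGraph V) : Prop :=
  2 ≤ k ∧ domNum G = k - 1 ∧ ∀ x y : V, x ≠ y → ¬ G.Adj x y → ∃ S : Finset V, S.card = k - 2 ∧
    (PreciselyDominates G (insert x (S : Set V)) {y}ᶜ ∨
      PreciselyDominates G (insert y (S : Set V)) {x}ᶜ)

/-- The diameters of the connected `k`-conservative graphs. -/
def diameters (k : ℕ) : Set ℕ :=
  {d | ∃ (V : Type) (_ : Fintype V) (G : SimpleGraph V), G.Connected ∧ IsConservative k G ∧
    G.diam = d}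

section Upper

variable {V : Type} (G : SimpleGraph V)

/-- `A` dominates every vertex except `y`. -/
def Miss (A : Finset V) (y : V) : Prop := (∀ v, v ≠ y → Dom G A v) ∧ ¬ Dom G A y

/-- The working form of the conservative property. -/
def Cons (c : ℕ) : Prop := ∀ x y : V, x ≠ y → ¬ G.Adj x y → ∃ A : Finset V, A.card ≤ c ∧
  ((x ∈ A ∧ Miss G A y) ∨ (y ∈ A ∧ Miss G A x))

/-- A layering with the layers `0, …, d`. -/
def Layer (d : ℕ) (l : V → ℕ) : Prop :=
  (∀ a b, G.Adj a b → l a ≤ l b + 1) ∧ (∀ v, l v ≤ d) ∧ ∀ i ≤ d, ∃ v, l v = i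

variable {G}

lemma Layer.reflect {d : ℕ} {l : V → ℕ} (h : Layer G d l) : Layer G d (fun v => d - l v) := by
  refine ⟨?_, fun v => Nat.sub_le _ _, ?_⟩
  · intro a b hab
    have := h.1 b a hab.symm
    simp only
    omega
  · intro i hi
    obtain ⟨v, hv⟩ := h.2.2 (d - i) (Nat.sub_le _ _)
    exact ⟨v, by simp only; omega⟩

/-- Levels at distance at least three are dominated by different vertices. -/
lemma pack (l : V → ℕ) (A : Finset V) (p : V → Prop) [DecidablePred p] (t u : ℕ)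
    (h : ∀ s < u, ∃ a ∈ A, t + 3 * s ≤ l a + 1 ∧ l a ≤ t + 3 * s + 1)
    (hp : ∀ a, t ≤ l a + 1 → l a + 2 ≤ t + 3 * u → p a) : u ≤ (A.filter p).card := by
  classical
  rcases Nat.eq_zero_or_pos u with hu | hu
  · rw [hu]; exact Nat.zero_le _
  have hne : Nonempty V := ⟨(h 0 hu).choose⟩
  choose! f hf using h
  have h1 : (range u).card ≤ (A.filter p).card := by
    refine card_le_card_of_injOn f ?_ ?_
    · intro s hs
      have hs := mem_range.1 (mem_coe.1 hs)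
      obtain ⟨h1, h2, h3⟩ := hf s hs
      exact mem_coe.2 (mem_filter.2 ⟨h1, hp _ (by omega) (by omega)⟩)
    · intro s hs s' hs' hss
      have h1 := hf s (mem_range.1 (mem_coe.1 hs))
      have h2 := hf s' (mem_range.1 (mem_coe.1 hs'))
      rw [← hss] at h2
      omega
  rwa [card_range] at h1

lemma cover {d : ℕ} {l : V → ℕ} (h : Layer G d l) {A : Finset V} {y : V} (hA : Miss G A y)
    (i : ℕ) (hi : i ≤ d) (hy : i ≠ l y) : ∃ a ∈ A, i ≤ l a + 1 ∧ l a ≤ i + 1 := by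
  obtain ⟨v, hv⟩ := h.2.2 i hi
  have hvy : v ≠ y := fun h => hy (by rw [← hv, h])
  obtain ⟨a, ha, h1⟩ := hA.1 v hvy
  refine ⟨a, ha, ?_⟩
  rcases h1 with h1 | h1
  · subst h1; omega
  · have h2 := h.1 a v h1
    have h3 := h.1 v a h1.symm
    omega

/-- Three disjoint parts of `A`. -/
lemma three_parts (l : V → ℕ) (A : Finset V) (p : ℕ) :
    (A.filter fun a => l a < p).card + (A.filter fun a => l a = p).card +
      (A.filter fun a => p < l a).card = A.card := by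
  classical
  have h1 := card_filter_add_card_filter_not (s := A) (fun a => l a < p)
  have h2 := card_filter_add_card_filter_not (s := A.filter fun a => ¬ l a < p)
    (fun a => l a = p)
  rw [filter_filter, filter_filter] at h2
  have h3 : (A.filter fun a => ¬ l a < p ∧ l a = p) = A.filter fun a => l a = p :=
    filter_congr fun a _ => by omega
  have h4 : (A.filter fun a => ¬ l a < p ∧ ¬ l a = p) = A.filter fun a => p < l a :=
    filter_congr fun a _ => by omega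
  rw [h3, h4] at h2
  omega

lemma one_le_mem (l : V → ℕ) (A : Finset V) (x : V) (hx : x ∈ A) (p : ℕ) (hp : l x = p) :
    1 ≤ (A.filter fun a => l a = p).card :=
  card_pos.2 ⟨x, mem_filter.2 ⟨hx, hp⟩⟩

/-- The diameter `3 c - 1` is impossible for `c ≥ 2`. -/
lemma no1 {d c : ℕ} {l : V → ℕ} (h : Layer G d l) (hc : 2 ≤ c) (hd : d + 1 = 3 * c)
    (hG : Cons G c) : False := by
  obtain ⟨x, hx⟩ := h.2.2 0 (by omega)
  obtain ⟨y, hy⟩ := h.2.2 3 (by omega)
  obtain ⟨A, hA, h1⟩ := hG x y (fun h => by rw [h] at hx; omega) (fun h2 => by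
    have := h.1 y x h2.symm
    omega)
  rcases h1 with ⟨hxA, hm⟩ | ⟨hyA, hm⟩
  · have h2 := pack l A (fun a => 0 < l a) 2 c (fun s hs => cover h hm (2 + 3 * s) (by omega)
      (by omega)) (fun a h1 h2 => by omega)
    have h3 := one_le_mem l A x hxA 0 hx
    have h4 := three_parts l A 0
    omega
  · have h2 := pack l A (fun a => l a < 3) 1 1 (fun s hs => cover h hm (1 + 3 * s) (by omega)
      (by omega)) (fun a h1 h2 => by omega)
    have h3 := one_le_mem l A y hyA 3 hy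
    have h5 := pack l A (fun a => 3 < l a) 5 (c - 1) (fun s hs => cover h hm (5 + 3 * s) (by omega)
      (by omega)) (fun a h1 h2 => by omega)
    have h4 := three_parts l A 3
    omega

/-- The diameter `3 c - 2` is impossible for `c ≥ 3`. -/
lemma no2 {d c : ℕ} {l : V → ℕ} (h : Layer G d l) (hc : 3 ≤ c) (hd : d + 2 = 3 * c)
    (hG : Cons G c) : False := by
  obtain ⟨x, hx⟩ := h.2.2 2 (by omega)
  obtain ⟨y, hy⟩ := h.2.2 5 (by omega)
  obtain ⟨A, hA, h1⟩ := hG x y (fun h => by rw [h] at hx; omega) (fun h2 => by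
    have := h.1 y x h2.symm
    omega)
  rcases h1 with ⟨hxA, hm⟩ | ⟨hyA, hm⟩
  · have h2 := pack l A (fun a => l a < 2) 0 1 (fun s hs => cover h hm (0 + 3 * s) (by omega)
      (by omega)) (fun a h1 h2 => by omega)
    have h3 := one_le_mem l A x hxA 2 hx
    have h5 := pack l A (fun a => 2 < l a) 4 (c - 1) (fun s hs => cover h hm (4 + 3 * s) (by omega)
      (by omega)) (fun a h1 h2 => by omega)
    have h4 := three_parts l A 2
    omega
  · have h2 := pack l A (fun a => l a < 5) 0 2 (fun s hs => cover h hm (0 + 3 * s) (by omega)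
      (by omega)) (fun a h1 h2 => by omega)
    have h3 := one_le_mem l A y hyA 5 hy
    have h5 := pack l A (fun a => 5 < l a) 7 (c - 2) (fun s hs => cover h hm (7 + 3 * s) (by omega)
      (by omega)) (fun a h1 h2 => by omega)
    have h4 := three_parts l A 5
    omega

/-- For diameter `3 c - 3`, `c ≥ 4`, one vertex dominates the last three layers. -/
lemma endpoint {d c : ℕ} {l : V → ℕ} (h : Layer G d l) (hc : 4 ≤ c) (hd : d + 3 = 3 * c)
    (hG : Cons G c) : ∃ a, ∀ v, d ≤ l v + 2 → a = v ∨ G.Adj a v := by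
  classical
  obtain ⟨x, hx⟩ := h.2.2 2 (by omega)
  obtain ⟨y, hy⟩ := h.2.2 5 (by omega)
  obtain ⟨A, hA, h1⟩ := hG x y (fun h => by rw [h] at hx; omega) (fun h2 => by
    have := h.1 y x h2.symm
    omega)
  -- in both cases at least `c - 1` vertices of `A` lie in the layers `≤ d - 4`
  have key : ∀ z, l z ≤ 5 → Miss G A z → c ≤ (A.filter fun a => l a + 4 ≤ d).card + 1 →
      ∃ a, ∀ v, d ≤ l v + 2 → a = v ∨ G.Adj a v := by
    intro z hz hm hcard
    have h2 := card_filter_add_card_filter_not (s := A) (fun a => l a + 4 ≤ d)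
    have h3 : (A.filter fun a => ¬ l a + 4 ≤ d).card ≤ 1 := by omega
    have h4 : ∀ v, d ≤ l v + 2 → ∃ a ∈ A.filter fun a => ¬ l a + 4 ≤ d, a = v ∨ G.Adj a v := by
      intro v hv
      obtain ⟨a, ha, h5⟩ := hm.1 v (fun h => by rw [h] at hv; omega)
      refine ⟨a, mem_filter.2 ⟨ha, ?_⟩, h5⟩
      rcases h5 with h5 | h5
      · subst h5; omega
      · have := h.1 v a h5.symm
        omega
    obtain ⟨w, hw⟩ := h.2.2 d le_rfl
    obtain ⟨a, ha, -⟩ := h4 w (by omega)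
    refine ⟨a, fun v hv => ?_⟩
    obtain ⟨a', ha', h5⟩ := h4 v hv
    rw [card_le_one] at h3
    rw [h3 a ha a' ha']
    exact h5
  rcases h1 with ⟨hxA, hm⟩ | ⟨hyA, hm⟩
  · apply key y (by omega) hm
    have h2 := pack l (A.filter fun a => l a + 4 ≤ d) (fun a => l a < 2) 0 1 (fun s hs => by
      obtain ⟨a, ha, h5⟩ := cover h hm (0 + 3 * s) (by omega) (by omega)
      exact ⟨a, mem_filter.2 ⟨ha, by omega⟩, h5⟩) (fun a h1 h2 => by omega)
    have h3 := one_le_mem l (A.filter fun a => l a + 4 ≤ d) x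
      (mem_filter.2 ⟨hxA, by omega⟩) 2 hx
    have h5 := pack l (A.filter fun a => l a + 4 ≤ d) (fun a => 2 < l a) 4 (c - 3) (fun s hs => by
      obtain ⟨a, ha, h5⟩ := cover h hm (4 + 3 * s) (by omega) (by omega)
      exact ⟨a, mem_filter.2 ⟨ha, by omega⟩, h5⟩) (fun a h1 h2 => by omega)
    have h4 := three_parts l (A.filter fun a => l a + 4 ≤ d) 2
    omega
  · apply key x (by omega) hm
    have h2 := pack l (A.filter fun a => l a + 4 ≤ d) (fun a => l a < 5) 0 2 (fun s hs => by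
      obtain ⟨a, ha, h5⟩ := cover h hm (0 + 3 * s) (by omega) (by omega)
      exact ⟨a, mem_filter.2 ⟨ha, by omega⟩, h5⟩) (fun a h1 h2 => by omega)
    have h3 := one_le_mem l (A.filter fun a => l a + 4 ≤ d) y
      (mem_filter.2 ⟨hyA, by omega⟩) 5 hy
    have h5 := pack l (A.filter fun a => l a + 4 ≤ d) (fun a => 5 < l a) 7 (c - 4) (fun s hs => by
      obtain ⟨a, ha, h5⟩ := cover h hm (7 + 3 * s) (by omega) (by omega)
      exact ⟨a, mem_filter.2 ⟨ha, by omega⟩, h5⟩) (fun a h1 h2 => by omega)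
    have h4 := three_parts l (A.filter fun a => l a + 4 ≤ d) 5
    omega

/-- The diameter `3 c - 3` is impossible for `c ≥ 4`. -/
lemma no3 {d c : ℕ} {l : V → ℕ} (h : Layer G d l) (hc : 4 ≤ c) (hd : d + 3 = 3 * c)
    (hG : Cons G c) : False := by
  obtain ⟨a, ha⟩ := endpoint h hc hd hG
  obtain ⟨b, hb⟩ := endpoint h.reflect hc hd hG
  obtain ⟨z0, hz0⟩ := h.2.2 0 (by omega)
  obtain ⟨z2, hz2⟩ := h.2.2 2 (by omega)
  obtain ⟨zd, hzd⟩ := h.2.2 d le_rfl
  obtain ⟨ze, hze⟩ := h.2.2 (d - 2) (by omega)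
  have hle : ∀ u v, (u = v ∨ G.Adj u v) → l u ≤ l v + 1 ∧ l v ≤ l u + 1 := by
    rintro u v (rfl | huv)
    · omega
    · exact ⟨h.1 _ _ huv, h.1 _ _ huv.symm⟩
  have hla : l a + 1 = d := by
    have h1 := hle _ _ (ha zd (by omega))
    have h2 := hle _ _ (ha ze (by omega))
    omega
  have hlb : l b = 1 := by
    have h1 := hle _ _ (hb z0 (by omega))
    have h2 := hle _ _ (hb z2 (by omega))
    omega
  obtain ⟨A, hA, h1⟩ := hG a b (fun h => by rw [h] at hla; omega) (fun h2 => by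
    have := h.1 a b h2
    omega)
  rcases h1 with ⟨-, hm⟩ | ⟨-, hm⟩
  · obtain ⟨a', ha', h2⟩ := hm.1 z0 (fun h => by rw [h] at hz0; omega)
    have h3 := hle _ _ h2
    refine hm.2 ⟨a', ha', ?_⟩
    rcases hb a' (by omega) with h4 | h4
    · exact Or.inl h4.symm
    · exact Or.inr h4.symm
  · obtain ⟨a', ha', h2⟩ := hm.1 zd (fun h => by rw [h] at hzd; omega)
    have h3 := hle _ _ h2
    refine hm.2 ⟨a', ha', ?_⟩
    rcases ha a' (by omega) with h4 | h4
    · exact Or.inl h4.symm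
    · exact Or.inr h4.symm

/-- The general bound. -/
lemma general {d : ℕ} {l : V → ℕ} (h : Layer G d l) (D : Finset V) (hD : ∀ v, Dom G D v) :
    d + 1 ≤ 3 * D.card := by
  by_contra hcon
  push Not at hcon
  have h2 := pack l D (fun _ => True) 0 (D.card + 1) (fun s hs => by
    obtain ⟨v, hv⟩ := h.2.2 (0 + 3 * s) (by omega)
    obtain ⟨a, ha, h1⟩ := hD v
    refine ⟨a, ha, ?_⟩
    rcases h1 with h1 | h1
    · subst h1; omega
    · have h2 := h.1 a v h1
      have h3 := h.1 v a h1.symm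
      omega) (fun _ _ _ => trivial)
  rw [filter_true] at h2
  omega

lemma walk_level {l : V → ℕ} (h : ∀ a b, G.Adj a b → l a ≤ l b + 1) {u v : V} (p : G.Walk u v) :
    ∀ i, l u ≤ i → i ≤ l v → ∃ w, l w = i := by
  induction p with
  | nil => intro i h1 h2; exact ⟨_, le_antisymm h1 h2⟩
  | cons hab p ih =>
    intro i h1 h2
    rcases Nat.eq_or_lt_of_le h1 with h3 | h3
    · exact ⟨_, h3⟩
    · have := h _ _ hab.symm
      exact ih i (by omega) h2

/-- The distances from an end of a diametral path give a layering. -/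
lemma exists_layer [Finite V] (hG : G.Connected) : ∃ l : V → ℕ, Layer G G.diam l := by
  have hne0 := hG.nonempty
  obtain ⟨u, v, huv⟩ := G.exists_dist_eq_diam
  have hne : G.ediam ≠ ⊤ := SimpleGraph.connected_iff_ediam_ne_top.1 hG
  have h1 : ∀ a b, G.Adj a b → G.dist u a ≤ G.dist u b + 1 := by
    intro a b hab
    have h2 := hG.dist_triangle (u := u) (v := b) (w := a)
    have h3 : G.dist b a = 1 := SimpleGraph.dist_eq_one_iff_adj.2 hab.symm
    omega
  refine ⟨fun w => G.dist u w, h1, fun w => SimpleGraph.dist_le_diam hne, ?_⟩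
  intro i hi
  obtain ⟨p⟩ := hG.preconnected u v
  exact walk_level h1 p i (by simp) (by omega)

lemma cons_of {k : ℕ} (h : IsConservative k G) : Cons G (k - 1) := by
  classical
  intro x y hxy hadj
  obtain ⟨S, hS, h1⟩ := h.2.2 x y hxy hadj
  have hcard : ∀ z, (insert z S).card ≤ k - 1 := by
    intro z
    have := card_insert_le z S
    have := h.1
    omega
  have hconv : ∀ x y, PreciselyDominates G (insert x (S : Set V)) {y}ᶜ →
      Miss G (insert x S) y := by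
    intro x y hp
    rw [Miss, coe_insert]
    refine ⟨fun v hv => hp.1 v (by simpa using hv), hp.2 y (by simp)⟩
  rcases h1 with h1 | h1
  · exact ⟨insert x S, hcard x, Or.inl ⟨mem_insert_self _ _, hconv _ _ h1⟩⟩
  · exact ⟨insert y S, hcard y, Or.inr ⟨mem_insert_self _ _, hconv _ _ h1⟩⟩

lemma exists_dom [Fintype V] : ∃ D : Finset V, D.card = domNum G ∧ ∀ v, Dom G D v := by
  have h : {n : ℕ | ∃ D : Finset V, D.card = n ∧ ∀ v, Dom G D v}.Nonempty :=
    ⟨_, univ, rfl, fun v => ⟨v, by simp, Or.inl rfl⟩⟩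
  exact Nat.sInf_mem h

/-- The upper bounds. -/
theorem upper {k : ℕ} [Fintype V] (hG : G.Connected) (h : IsConservative k G) :
    G.diam + 4 ≤ 3 * k ∧ (3 ≤ k → G.diam + 5 ≤ 3 * k) ∧ (4 ≤ k → G.diam + 6 ≤ 3 * k) ∧
      (5 ≤ k → G.diam + 7 ≤ 3 * k) := by
  obtain ⟨l, hl⟩ := exists_layer hG
  have hc := cons_of h
  obtain ⟨D, hD, hD2⟩ := exists_dom (G := G)
  have h1 := general hl D hD2
  rw [hD, h.2.1] at h1
  have hk := h.1
  have h0 : G.diam + 4 ≤ 3 * k := by omega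
  have h2 : 3 ≤ k → G.diam + 5 ≤ 3 * k := by
    intro h3
    by_contra hcon
    exact no1 hl (c := k - 1) (by omega) (by omega) hc
  have h3 : 4 ≤ k → G.diam + 6 ≤ 3 * k := by
    intro h3
    by_contra hcon
    have := h2 (by omega)
    exact no2 hl (c := k - 1) (by omega) (by omega) hc
  refine ⟨h0, h2, h3, ?_⟩
  intro h4
  by_contra hcon
  have := h3 (by omega)
  exact no3 hl (c := k - 1) (by omega) (by omega) hc

/-- From the working form back to the definition. -/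
lemma conservative_of {c : ℕ} (hc : 1 ≤ c) (hd : domNum G = c)
    (h : ∀ x y : V, x ≠ y → ¬ G.Adj x y → ∃ A : Finset V, A.card ≤ c ∧
      ((x ∈ A ∧ Miss G A y) ∨ (y ∈ A ∧ Miss G A x))) : IsConservative (c + 1) G := by
  classical
  refine ⟨by omega, by rw [hd]; rfl, ?_⟩
  intro x y hxy hadj
  have key : ∀ (A : Finset V) (x y : V), A.card ≤ c → x ∈ A → Miss G A y →
      ∃ S : Finset V, S.card = c + 1 - 2 ∧ PreciselyDominates G (insert x (S : Set V)) {y}ᶜ := by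
    intro A x y hA hx hm
    have h1 : c ≤ (insert y A).card := by
      rw [← hd]
      apply Nat.sInf_le
      refine ⟨_, rfl, ?_⟩
      intro v
      by_cases hv : v = y
      · exact ⟨v, by simp [hv], Or.inl rfl⟩
      · obtain ⟨a, ha, h2⟩ := hm.1 v hv
        exact ⟨a, by rw [coe_insert]; exact Or.inr ha, h2⟩
    have h2 := card_insert_le y A
    have h3 : PreciselyDominates G (A : Set V) {y}ᶜ := by
      refine ⟨fun v hv => hm.1 v (by simpa using hv), fun v hv => ?_⟩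
      have : v = y := by simpa using hv
      rw [this]; exact hm.2
    by_cases h4 : A.card = c
    · refine ⟨A.erase x, by rw [card_erase_of_mem hx]; omega, ?_⟩
      rw [← coe_insert, insert_erase hx]
      exact h3
    · refine ⟨A, by omega, ?_⟩
      rw [← coe_insert, insert_eq_of_mem hx]
      exact h3
  obtain ⟨A, hA, h1⟩ := h x y hxy hadj
  rcases h1 with ⟨hx, hm⟩ | ⟨hy, hm⟩
  · obtain ⟨S, hS, h2⟩ := key A x y hA hx hm
    exact ⟨S, hS, Or.inl h2⟩
  · obtain ⟨S, hS, h2⟩ := key A y x hA hy hm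
    exact ⟨S, hS, Or.inr h2⟩

end Upper

section Lower

/-- The path `0, 1, …, n - 1` with the additional edge `{n - 4, n - 1}`. -/
def adjN (n i j : ℕ) : Prop :=
  i + 1 = j ∨ j + 1 = i ∨ (i + 4 = n ∧ j + 1 = n) ∨ (j + 4 = n ∧ i + 1 = n)

instance (n i j : ℕ) : Decidable (adjN n i j) := by unfold adjN; infer_instance

/-- The path `0, 1, …, n - 1` with the additional edge `{n - 4, n - 1}`. -/
def H (n : ℕ) : SimpleGraph (Fin n) where
  Adj i j := adjN n i.val j.val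
  symm := ⟨fun i j h => by unfold adjN at *; omega⟩
  loopless := ⟨fun i h => by unfold adjN at h; omega⟩

instance (n : ℕ) : DecidableRel (H n).Adj := fun i j =>
  inferInstanceAs (Decidable (adjN n i.val j.val))

lemma H_adj {n : ℕ} (i j : Fin n) : (H n).Adj i j ↔ adjN n i.val j.val := Iff.rfl

lemma H_connected (n : ℕ) (hn : 0 < n) : (H n).Connected := by
  have h0 : ∀ (i : ℕ) (hi : i < n), (H n).Reachable ⟨0, hn⟩ ⟨i, hi⟩ := by
    intro i
    induction i with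
    | zero => intro _; exact SimpleGraph.Reachable.refl _
    | succ i ih =>
      intro hi
      refine (ih (by omega)).trans (SimpleGraph.Adj.reachable ?_)
      exact Or.inl rfl
  have hne0 : Nonempty (Fin n) := ⟨⟨0, hn⟩⟩
  exact ⟨fun u v => (h0 u.1 u.2).symm.trans (h0 v.1 v.2)⟩

lemma walk_le {V : Type} {G : SimpleGraph V} {p : V → ℕ} (h : ∀ a b, G.Adj a b → p b ≤ p a + 1)
    {u v : V} (w : G.Walk u v) : p v ≤ p u + w.length := by
  induction w with
  | nil => simp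
  | cons hab w ih =>
    have := h _ _ hab
    rw [SimpleGraph.Walk.length_cons]
    omega

lemma diam_ge (n : ℕ) (hn : 3 ≤ n) : n ≤ (H n).diam + (if n = 3 then 1 else 2) := by
  have hc := H_connected n (by omega)
  have hne0 := hc.nonempty
  have hne : (H n).ediam ≠ ⊤ := SimpleGraph.connected_iff_ediam_ne_top.1 hc
  split_ifs with h3
  · subst h3
    have h1 := SimpleGraph.dist_le_diam hne (u := (0 : Fin 3)) (v := 2)
    obtain ⟨w, hw⟩ := (hc.preconnected (0 : Fin 3) 2).exists_walk_length_eq_dist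
    have h2 := walk_le (p := fun i : Fin 3 => i.val) (G := H 3) (fun a b hab => by
      rw [H_adj] at hab
      unfold adjN at hab
      omega) w
    simp at h2
    omega
  · set a : Fin n := ⟨0, by omega⟩ with ha
    set b : Fin n := ⟨n - 2, by omega⟩ with hb
    have h1 := SimpleGraph.dist_le_diam hne (u := a) (v := b)
    obtain ⟨w, hw⟩ := (hc.preconnected a b).exists_walk_length_eq_dist
    have h2 := walk_le (p := fun i : Fin n => if i.val + 1 = n then n - 3 else i.val) (G := H n)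
      (fun a b hab => by
        rw [H_adj] at hab
        unfold adjN at hab
        have := a.2
        have := b.2
        split_ifs <;> omega) w
    have h4 : a.val = 0 := rfl
    have h5 : b.val = n - 2 := rfl
    simp only [h4, h5] at h2
    split_ifs at h2 <;> omega

/-- The set of vertices of `H n` with values in `S`. -/
def lift (n : ℕ) (S : Finset ℕ) : Finset (Fin n) := univ.filter fun v => v.val ∈ S

lemma lift_card (n : ℕ) (S : Finset ℕ) : (lift n S).card ≤ S.card := by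
  refine card_le_card_of_injOn (fun v => v.val) ?_ ?_
  · intro v hv
    exact (mem_filter.1 (mem_coe.1 hv)).2
  · intro v _ w _ h
    exact Fin.ext h

lemma pairOK {n : ℕ} (S : Finset ℕ) (x y : Fin n) (hx : x.val ∈ S)
    (hdom : ∀ v < n, v ≠ y.val → ∃ a ∈ S, a < n ∧ (a = v ∨ adjN n a v))
    (hmiss : ∀ a ∈ S, a < n → a ≠ y.val ∧ ¬ adjN n a y.val) :
    x ∈ lift n S ∧ Miss (H n) (lift n S) y := by
  refine ⟨mem_filter.2 ⟨mem_univ _, hx⟩, ?_, ?_⟩
  · intro v hv
    obtain ⟨a, ha, han, h⟩ := hdom v.1 v.2 (fun h => hv (Fin.ext h))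
    refine ⟨⟨a, han⟩, by simp [lift, ha], ?_⟩
    rcases h with h | h
    · exact Or.inl (Fin.ext h)
    · exact Or.inr h
  · rintro ⟨a, ha, h⟩
    have ha' : a.val ∈ S := by simpa [lift] using ha
    obtain ⟨h1, h2⟩ := hmiss a.val ha' a.2
    rcases h with h | h
    · exact h1 (by rw [h])
    · exact h2 h

/-- An arithmetic progression. -/
def AP (t u : ℕ) : Finset ℕ := (range u).image fun s => t + 3 * s

/-- A decreasing arithmetic progression. -/
def DP (t u : ℕ) : Finset ℕ := (range u).image fun s => t - 3 * s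

lemma mem_AP {t u a : ℕ} : a ∈ AP t u ↔ ∃ s < u, t + 3 * s = a := by simp [AP]

lemma mem_DP {t u a : ℕ} : a ∈ DP t u ↔ ∃ s < u, t - 3 * s = a := by simp [DP]

lemma card_AP (t u : ℕ) : (AP t u).card ≤ u := card_image_le.trans (by simp)

lemma card_DP (t u : ℕ) : (DP t u).card ≤ u := card_image_le.trans (by simp)

/-- The dominating sets are unions of this form. -/
def Gen (t1 u1 i t2 u2 t3 u3 e : ℕ) : Finset ℕ :=
  AP t1 u1 ∪ ({i} ∪ (DP t2 u2 ∪ (AP t3 u3 ∪ {e})))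

lemma mem_Gen {t1 u1 i t2 u2 t3 u3 e a : ℕ} : a ∈ Gen t1 u1 i t2 u2 t3 u3 e ↔
    (∃ s < u1, t1 + 3 * s = a) ∨ a = i ∨ (∃ s < u2, t2 - 3 * s = a) ∨
      (∃ s < u3, t3 + 3 * s = a) ∨ a = e := by
  rw [Gen, mem_union, mem_union, mem_union, mem_union, mem_AP, mem_singleton, mem_DP, mem_AP,
    mem_singleton]

lemma card_Gen (t1 u1 i t2 u2 t3 u3 e : ℕ) : (Gen t1 u1 i t2 u2 t3 u3 e).card ≤
    u1 + u2 + u3 + 2 := by
  unfold Gen
  have h1 := card_union_le (AP t1 u1) ({i} ∪ (DP t2 u2 ∪ (AP t3 u3 ∪ {e})))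
  have h2 := card_union_le {i} (DP t2 u2 ∪ (AP t3 u3 ∪ {e}))
  have h3 := card_union_le (DP t2 u2) (AP t3 u3 ∪ {e})
  have h4 := card_union_le (AP t3 u3) {e}
  have h5 := card_AP t1 u1
  have h6 := card_DP t2 u2
  have h7 := card_AP t3 u3
  rw [card_singleton] at h2 h4
  omega

/-- Both in the path part, not both `≡ 2` modulo `3`. -/
lemma case1 (r i y : ℕ) (hi : i + 2 ≤ y) (hy : y ≤ 3 * r) (hmod : ¬ (i % 3 = 2 ∧ y % 3 = 2)) :
    ∃ S : Finset ℕ, S.card ≤ r + 2 ∧ i ∈ S ∧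
      (∀ v < 3 * r + 4, v ≠ y → ∃ a ∈ S, a < 3 * r + 4 ∧ (a = v ∨ adjN (3 * r + 4) a v)) ∧
      (∀ a ∈ S, a < 3 * r + 4 → a ≠ y ∧ ¬ adjN (3 * r + 4) a y) := by
  refine ⟨Gen 1 ((i + 1) / 3) i (y - 2) ((y - i) / 3) (y + 2) ((3 * r - y + 2) / 3) (3 * r + 2),
    (card_Gen _ _ _ _ _ _ _ _).trans (by omega), mem_Gen.2 (by simp), ?_, ?_⟩
  · intro v hv hvy
    by_cases h1 : v + 2 ≤ i
    · refine ⟨_, mem_Gen.2 (Or.inl ⟨v / 3, by omega, rfl⟩), by omega, ?_⟩
      unfold adjN; omega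
    by_cases h2 : v ≤ i + 1
    · refine ⟨_, mem_Gen.2 (Or.inr (Or.inl rfl)), by omega, ?_⟩
      unfold adjN; omega
    by_cases h3 : v < y
    · refine ⟨_, mem_Gen.2 (Or.inr (Or.inr (Or.inl ⟨(y - 1 - v) / 3, by omega, rfl⟩))),
        by omega, ?_⟩
      unfold adjN; omega
    by_cases h4 : v ≤ 3 * r
    · refine ⟨_, mem_Gen.2 (Or.inr (Or.inr (Or.inr (Or.inl ⟨(v - y - 1) / 3, by omega, rfl⟩)))),
        by omega, ?_⟩
      unfold adjN; omega
    · refine ⟨_, mem_Gen.2 (Or.inr (Or.inr (Or.inr (Or.inr rfl)))), by omega, ?_⟩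
      unfold adjN; omega
  · intro a ha han
    rw [mem_Gen] at ha
    unfold adjN
    rcases ha with ⟨s, hs, rfl⟩ | rfl | ⟨s, hs, rfl⟩ | ⟨s, hs, rfl⟩ | rfl <;> omega

/-- Both in the path part and both `≡ 2` modulo `3`: here the smaller one is missed. -/
lemma case2 (r i y : ℕ) (hi : i + 2 ≤ y) (hy : y ≤ 3 * r) (h1 : i % 3 = 2) (h2 : y % 3 = 2) :
    ∃ S : Finset ℕ, S.card ≤ r + 2 ∧ y ∈ S ∧
      (∀ v < 3 * r + 4, v ≠ i → ∃ a ∈ S, a < 3 * r + 4 ∧ (a = v ∨ adjN (3 * r + 4) a v)) ∧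
      (∀ a ∈ S, a < 3 * r + 4 → a ≠ i ∧ ¬ adjN (3 * r + 4) a i) := by
  refine ⟨Gen 0 ((i + 1) / 3) y (y - 1) ((y - i) / 3) (y + 3) ((3 * r - y - 1) / 3) (3 * r + 2),
    (card_Gen _ _ _ _ _ _ _ _).trans (by omega), mem_Gen.2 (by simp), ?_, ?_⟩
  · intro v hv hvy
    by_cases h1 : v < i
    · refine ⟨_, mem_Gen.2 (Or.inl ⟨(v + 1) / 3, by omega, rfl⟩), by omega, ?_⟩
      unfold adjN; omega
    by_cases h3 : v < y
    · refine ⟨_, mem_Gen.2 (Or.inr (Or.inr (Or.inl ⟨(y - v) / 3, by omega, rfl⟩))),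
        by omega, ?_⟩
      unfold adjN; omega
    by_cases h2 : v ≤ y + 1
    · refine ⟨_, mem_Gen.2 (Or.inr (Or.inl rfl)), by omega, ?_⟩
      unfold adjN; omega
    by_cases h4 : v ≤ 3 * r
    · refine ⟨_, mem_Gen.2 (Or.inr (Or.inr (Or.inr (Or.inl ⟨(v - y - 2) / 3, by omega, rfl⟩)))),
        by omega, ?_⟩
      unfold adjN; omega
    · refine ⟨_, mem_Gen.2 (Or.inr (Or.inr (Or.inr (Or.inr rfl)))), by omega, ?_⟩
      unfold adjN; omega
  · intro a ha han
    rw [mem_Gen] at ha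
    unfold adjN
    rcases ha with ⟨s, hs, rfl⟩ | rfl | ⟨s, hs, rfl⟩ | ⟨s, hs, rfl⟩ | rfl <;> omega

/-- The vertex `3 r + 1` is missed. -/
lemma case3 (r i : ℕ) (hi : i < 3 * r) :
    ∃ S : Finset ℕ, S.card ≤ r + 2 ∧ i ∈ S ∧
      (∀ v < 3 * r + 4, v ≠ 3 * r + 1 →
        ∃ a ∈ S, a < 3 * r + 4 ∧ (a = v ∨ adjN (3 * r + 4) a v)) ∧
      (∀ a ∈ S, a < 3 * r + 4 → a ≠ 3 * r + 1 ∧ ¬ adjN (3 * r + 4) a (3 * r + 1)) := by
  refine ⟨Gen 1 ((i + 1) / 3) i (3 * r - 1) ((3 * r + 1 - i) / 3) 0 0 (3 * r + 3),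
    (card_Gen _ _ _ _ _ _ _ _).trans (by omega), mem_Gen.2 (by simp), ?_, ?_⟩
  · intro v hv hvy
    by_cases h1 : v + 2 ≤ i
    · refine ⟨_, mem_Gen.2 (Or.inl ⟨v / 3, by omega, rfl⟩), by omega, ?_⟩
      unfold adjN; omega
    by_cases h2 : v ≤ i + 1
    · refine ⟨_, mem_Gen.2 (Or.inr (Or.inl rfl)), by omega, ?_⟩
      unfold adjN; omega
    by_cases h3 : v ≤ 3 * r
    · refine ⟨_, mem_Gen.2 (Or.inr (Or.inr (Or.inl ⟨(3 * r - v) / 3, by omega, rfl⟩))),
        by omega, ?_⟩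
      unfold adjN; omega
    · refine ⟨_, mem_Gen.2 (Or.inr (Or.inr (Or.inr (Or.inr rfl)))), by omega, ?_⟩
      unfold adjN; omega
  · intro a ha han
    rw [mem_Gen] at ha
    unfold adjN
    rcases ha with ⟨s, hs, rfl⟩ | rfl | ⟨s, hs, rfl⟩ | ⟨s, hs, rfl⟩ | rfl <;> omega

/-- The vertex `3 r + 3` is missed. -/
lemma case4 (r i : ℕ) (hi : i ≤ 3 * r + 1) (hi2 : i ≠ 3 * r) :
    ∃ S : Finset ℕ, S.card ≤ r + 2 ∧ i ∈ S ∧
      (∀ v < 3 * r + 4, v ≠ 3 * r + 3 →
        ∃ a ∈ S, a < 3 * r + 4 ∧ (a = v ∨ adjN (3 * r + 4) a v)) ∧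
      (∀ a ∈ S, a < 3 * r + 4 → a ≠ 3 * r + 3 ∧ ¬ adjN (3 * r + 4) a (3 * r + 3)) := by
  refine ⟨Gen 1 ((i + 1) / 3) i (3 * r - 1) ((3 * r + 1 - i) / 3) 0 0 (3 * r + 1),
    (card_Gen _ _ _ _ _ _ _ _).trans (by omega), mem_Gen.2 (by simp), ?_, ?_⟩
  · intro v hv hvy
    by_cases h1 : v + 2 ≤ i
    · refine ⟨_, mem_Gen.2 (Or.inl ⟨v / 3, by omega, rfl⟩), by omega, ?_⟩
      unfold adjN; omega
    by_cases h2 : v ≤ i + 1
    · refine ⟨_, mem_Gen.2 (Or.inr (Or.inl rfl)), by omega, ?_⟩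
      unfold adjN; omega
    by_cases h3 : v ≤ 3 * r
    · refine ⟨_, mem_Gen.2 (Or.inr (Or.inr (Or.inl ⟨(3 * r - v) / 3, by omega, rfl⟩))),
        by omega, ?_⟩
      unfold adjN; omega
    · refine ⟨_, mem_Gen.2 (Or.inr (Or.inr (Or.inr (Or.inr rfl)))), by omega, ?_⟩
      unfold adjN; omega
  · intro a ha han
    rw [mem_Gen] at ha
    unfold adjN
    rcases ha with ⟨s, hs, rfl⟩ | rfl | ⟨s, hs, rfl⟩ | ⟨s, hs, rfl⟩ | rfl <;> omega

/-- The vertex `3 r + 2` is missed. -/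
lemma case5 (r i : ℕ) (hi : i ≤ 3 * r) :
    ∃ S : Finset ℕ, S.card ≤ r + 2 ∧ i ∈ S ∧
      (∀ v < 3 * r + 4, v ≠ 3 * r + 2 →
        ∃ a ∈ S, a < 3 * r + 4 ∧ (a = v ∨ adjN (3 * r + 4) a v)) ∧
      (∀ a ∈ S, a < 3 * r + 4 → a ≠ 3 * r + 2 ∧ ¬ adjN (3 * r + 4) a (3 * r + 2)) := by
  refine ⟨Gen 1 ((i + 1) / 3) i (3 * r - 3) ((3 * r - 1 - i) / 3) 0 0 (3 * r),
    (card_Gen _ _ _ _ _ _ _ _).trans (by omega), mem_Gen.2 (by simp), ?_, ?_⟩
  · intro v hv hvy
    by_cases h1 : v + 2 ≤ i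
    · refine ⟨_, mem_Gen.2 (Or.inl ⟨v / 3, by omega, rfl⟩), by omega, ?_⟩
      unfold adjN; omega
    by_cases h2 : v ≤ i + 1
    · refine ⟨_, mem_Gen.2 (Or.inr (Or.inl rfl)), by omega, ?_⟩
      unfold adjN; omega
    by_cases h3 : v + 2 ≤ 3 * r
    · refine ⟨_, mem_Gen.2 (Or.inr (Or.inr (Or.inl ⟨(3 * r - 2 - v) / 3, by omega, rfl⟩))),
        by omega, ?_⟩
      unfold adjN; omega
    · refine ⟨_, mem_Gen.2 (Or.inr (Or.inr (Or.inr (Or.inr rfl)))), by omega, ?_⟩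
      unfold adjN; omega
  · intro a ha han
    rw [mem_Gen] at ha
    unfold adjN
    rcases ha with ⟨s, hs, rfl⟩ | rfl | ⟨s, hs, rfl⟩ | ⟨s, hs, rfl⟩ | rfl <;> omega

lemma pairs_lt (r : ℕ) (x y : Fin (3 * r + 4)) (hlt : x.val < y.val)
    (hadj : ¬ adjN (3 * r + 4) x.val y.val) : ∃ A : Finset (Fin (3 * r + 4)), A.card ≤ r + 2 ∧
      ((x ∈ A ∧ Miss (H (3 * r + 4)) A y) ∨ (y ∈ A ∧ Miss (H (3 * r + 4)) A x)) := by
  have hx := x.2
  have hy := y.2
  have hne : x.val + 1 ≠ y.val := fun h => hadj (Or.inl h)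
  have hne2 : ¬ (x.val = 3 * r ∧ y.val = 3 * r + 3) := fun h => hadj (by unfold adjN; omega)
  have key : (∃ S : Finset ℕ, S.card ≤ r + 2 ∧ x.val ∈ S ∧
      (∀ v < 3 * r + 4, v ≠ y.val → ∃ a ∈ S, a < 3 * r + 4 ∧ (a = v ∨ adjN (3 * r + 4) a v)) ∧
      (∀ a ∈ S, a < 3 * r + 4 → a ≠ y.val ∧ ¬ adjN (3 * r + 4) a y.val)) ∨
    (∃ S : Finset ℕ, S.card ≤ r + 2 ∧ y.val ∈ S ∧
      (∀ v < 3 * r + 4, v ≠ x.val → ∃ a ∈ S, a < 3 * r + 4 ∧ (a = v ∨ adjN (3 * r + 4) a v)) ∧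
      (∀ a ∈ S, a < 3 * r + 4 → a ≠ x.val ∧ ¬ adjN (3 * r + 4) a x.val)) := by
    rcases (by omega : y.val ≤ 3 * r ∨ y.val = 3 * r + 1 ∨ y.val = 3 * r + 2 ∨
      y.val = 3 * r + 3) with h | h | h | h
    · by_cases hmod : x.val % 3 = 2 ∧ y.val % 3 = 2
      · exact Or.inr (case2 r _ _ (by omega) h hmod.1 hmod.2)
      · exact Or.inl (case1 r _ _ (by omega) h hmod)
    · rw [h]; exact Or.inl (case3 r _ (by omega))
    · rw [h]; exact Or.inl (case5 r _ (by omega))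
    · rw [h]; exact Or.inl (case4 r _ (by omega) (by omega))
  rcases key with ⟨S, h1, h2, h3, h4⟩ | ⟨S, h1, h2, h3, h4⟩
  · exact ⟨lift _ S, (lift_card _ S).trans h1, Or.inl (pairOK S x y h2 h3 h4)⟩
  · exact ⟨lift _ S, (lift_card _ S).trans h1, Or.inr (pairOK S y x h2 h3 h4)⟩

lemma dom_lower (r : ℕ) (D : Finset (Fin (3 * r + 4))) (hD : ∀ v, Dom (H (3 * r + 4)) D v) :
    r + 2 ≤ D.card := by
  have hD' : ∀ v, v < 3 * r + 4 → ∃ a ∈ D, a.val = v ∨ adjN (3 * r + 4) a.val v := by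
    intro v hv
    obtain ⟨a, ha, h⟩ := hD ⟨v, hv⟩
    refine ⟨a, ha, ?_⟩
    rcases h with h | h
    · left; rw [h]
    · right; exact h
  have h1 := pack (fun v : Fin (3 * r + 4) => v.val) D (fun a => a.val + 2 ≤ 3 * r) 0 r
    (fun s hs => by
      obtain ⟨a, ha, h⟩ := hD' (3 * s) (by omega)
      refine ⟨a, ha, ?_⟩
      unfold adjN at h
      omega) (fun a _ h => by simpa using h)
  have h2 : 2 ≤ (D.filter fun a => ¬ a.val + 2 ≤ 3 * r).card := by
    have h3 : ∃ a ∈ D, ∃ b ∈ D, a ≠ b ∧ ¬ a.val + 2 ≤ 3 * r ∧ ¬ b.val + 2 ≤ 3 * r := by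
      obtain ⟨a, ha, h⟩ := hD' (3 * r + 2) (by omega)
      unfold adjN at h
      rcases (by omega : a.val = 3 * r + 2 ∨ a.val = 3 * r + 1 ∨ a.val = 3 * r + 3)
        with h4 | h4 | h4
      · obtain ⟨b, hb, h5⟩ := hD' (3 * r) (by omega)
        unfold adjN at h5
        exact ⟨a, ha, b, hb, fun h => by rw [h] at h4; omega, by omega, by omega⟩
      · obtain ⟨b, hb, h5⟩ := hD' (3 * r + 3) (by omega)
        unfold adjN at h5
        exact ⟨a, ha, b, hb, fun h => by rw [h] at h4; omega, by omega, by omega⟩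
      · obtain ⟨b, hb, h5⟩ := hD' (3 * r + 1) (by omega)
        unfold adjN at h5
        exact ⟨a, ha, b, hb, fun h => by rw [h] at h4; omega, by omega, by omega⟩
    obtain ⟨a, ha, b, hb, hne, h4, h5⟩ := h3
    exact one_lt_card.2 ⟨a, mem_filter.2 ⟨ha, h4⟩, b, mem_filter.2 ⟨hb, h5⟩, hne⟩
  have h3 := card_filter_add_card_filter_not (s := D)
    (fun a : Fin (3 * r + 4) => a.val + 2 ≤ 3 * r)
  omega

lemma dom_upper (r : ℕ) : ∃ D : Finset (Fin (3 * r + 4)), D.card ≤ r + 2 ∧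
    ∀ v, Dom (H (3 * r + 4)) D v := by
  refine ⟨lift _ (Gen 1 r (3 * r) 0 0 0 0 (3 * r + 2)), (lift_card _ _).trans
    ((card_Gen _ _ _ _ _ _ _ _).trans (by omega)), ?_⟩
  intro v
  have key : ∃ a ∈ Gen 1 r (3 * r) 0 0 0 0 (3 * r + 2), a < 3 * r + 4 ∧
      (a = v.val ∨ adjN (3 * r + 4) a v.val) := by
    have hv := v.2
    by_cases h1 : v.val < 3 * r
    · refine ⟨_, mem_Gen.2 (Or.inl ⟨v / 3, by omega, rfl⟩), by omega, ?_⟩
      unfold adjN; omega
    by_cases h2 : v.val = 3 * r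
    · refine ⟨_, mem_Gen.2 (Or.inr (Or.inl rfl)), by omega, ?_⟩
      unfold adjN; omega
    · refine ⟨_, mem_Gen.2 (Or.inr (Or.inr (Or.inr (Or.inr rfl)))), by omega, ?_⟩
      unfold adjN; omega
  obtain ⟨a, ha, han, h⟩ := key
  refine ⟨⟨a, han⟩, by simp [lift, ha], ?_⟩
  rcases h with h | h
  · exact Or.inl (Fin.ext h)
  · exact Or.inr h

lemma domNum_eq {V : Type} [Fintype V] {G : SimpleGraph V} {c : ℕ}
    (h1 : ∃ D : Finset V, D.card ≤ c ∧ ∀ v, Dom G D v)
    (h2 : ∀ D : Finset V, (∀ v, Dom G D v) → c ≤ D.card) : domNum G = c := by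
  apply le_antisymm
  · obtain ⟨D, hD, h⟩ := h1
    have h3 : D.card ∈ {n : ℕ | ∃ D : Finset V, D.card = n ∧ ∀ v, Dom G D v} := ⟨D, rfl, h⟩
    exact (Nat.sInf_le h3).trans hD
  · obtain ⟨D, hD, h⟩ := exists_dom (G := G)
    rw [← hD]
    exact h2 D h

theorem H_conservative (r : ℕ) : IsConservative (r + 3) (H (3 * r + 4)) := by
  refine conservative_of (c := r + 2) (by omega)
    (domNum_eq (dom_upper r) (dom_lower r)) ?_
  intro x y hxy hadj
  have hne : x.val ≠ y.val := fun h => hxy (Fin.ext h)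
  rcases lt_or_gt_of_ne hne with h | h
  · exact pairs_lt r x y h hadj
  · obtain ⟨A, hA, h1⟩ := pairs_lt r y x h (fun h => hadj (SimpleGraph.Adj.symm
      (G := H (3 * r + 4)) h))
    exact ⟨A, hA, h1.symm⟩

/-- A decidable form of the domination of a vertex. -/
def DomD (n : ℕ) (A : Finset (Fin n)) (v : Fin n) : Prop := ∃ a ∈ A, a = v ∨ (H n).Adj a v

instance (n : ℕ) (A : Finset (Fin n)) (v : Fin n) : Decidable (DomD n A v) := by
  unfold DomD; infer_instance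

/-- A decidable form of `x ∈ A ∧ Miss (H n) A y`. -/
def MissD (n : ℕ) (A : Finset (Fin n)) (x y : Fin n) : Prop :=
  x ∈ A ∧ (∀ v, v ≠ y → DomD n A v) ∧ ¬ DomD n A y

instance (n : ℕ) (A : Finset (Fin n)) (x y : Fin n) : Decidable (MissD n A x y) := by
  unfold MissD; infer_instance

/-- The small cases, from a table of sets. -/
lemma small {n c : ℕ} (hc : 1 ≤ c) (T : List (Finset (Fin n)))
    (h1 : ∃ D ∈ T, D.card ≤ c ∧ ∀ v, DomD n D v)
    (h2 : ∀ D : Finset (Fin n), (∀ v, DomD n D v) → c ≤ D.card)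
    (h3 : ∀ x y : Fin n, x ≠ y → ¬ (H n).Adj x y → ∃ A ∈ T, A.card ≤ c ∧
      (MissD n A x y ∨ MissD n A y x)) : IsConservative (c + 1) (H n) := by
  refine conservative_of hc (domNum_eq ?_ ?_) ?_
  · obtain ⟨D, -, hD, h⟩ := h1
    exact ⟨D, hD, h⟩
  · exact h2
  · intro x y hxy hadj
    obtain ⟨A, -, hA, h⟩ := h3 x y hxy hadj
    exact ⟨A, hA, h⟩

lemma H3 : IsConservative 2 (H 3) :=
  small (c := 1) le_rfl [{0}, {1}] (by decide) (by decide) (by decide)

lemma H6 : IsConservative 3 (H 6) :=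
  small (c := 2) (by norm_num) [{0, 2}, {0, 3}, {2, 3}, {1, 2}, {1, 3}, {1, 5}, {1, 4}]
    (by decide +kernel) (by decide +kernel) (by decide +kernel)

lemma H8 : IsConservative 4 (H 8) :=
  small (c := 3) (by norm_num) [{0, 1, 4}, {0, 2, 5}, {0, 4, 5}, {1, 5, 6}, {1, 3, 5}, {2, 4, 5},
    {0, 2, 4}, {1, 2, 6}, {1, 2, 7}, {2, 3, 6}, {1, 4, 6}]
    (by decide +kernel) (by decide +kernel) (by decide +kernel)

lemma mem_diameters {k n d : ℕ} (h : IsConservative k (H n)) (hn : 3 ≤ n)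
    (h1 : d + (if n = 3 then 1 else 2) = n)
    (h2 : d + 4 ≤ 3 * k) (h3 : 3 * k ≤ d + 4 ∨ (3 * k ≤ d + 5 ∧ 3 ≤ k) ∨
      (3 * k ≤ d + 6 ∧ 4 ≤ k) ∨ (3 * k ≤ d + 7 ∧ 5 ≤ k)) : d ∈ diameters k := by
  refine ⟨Fin n, inferInstance, H n, H_connected n (by omega), h, ?_⟩
  obtain ⟨a1, a2, a3, a4⟩ := upper (H_connected n (by omega)) h
  have := diam_ge n hn
  rcases h3 with h3 | ⟨h3, h4⟩ | ⟨h3, h4⟩ | ⟨h3, h4⟩
  · omega
  · have := a2 h4; omega
  · have := a3 h4; omega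
  · have := a4 h4; omega

end Lower

/-- The largest diameter `D(k)` of a connected `k`-conservative graph: `D(2) = 2`, `D(3) = 4`,
`D(4) = 6`, and `D(k) = 3 k - 7` for all `k ≥ 5`. -/
theorem result :
    IsGreatest (diameters 2) 2 ∧ IsGreatest (diameters 3) 4 ∧ IsGreatest (diameters 4) 6 ∧
      ∀ k, 5 ≤ k → IsGreatest (diameters k) (3 * k - 7) := by
  refine ⟨⟨?_, ?_⟩, ⟨?_, ?_⟩, ⟨?_, ?_⟩, fun k hk => ⟨?_, ?_⟩⟩
  · exact mem_diameters H3 (by norm_num) (by norm_num) (by norm_num) (by norm_num)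
  · rintro d ⟨V, _, G, hG, h, rfl⟩
    have := (upper hG h).1
    omega
  · exact mem_diameters H6 (by norm_num) (by norm_num) (by norm_num) (by norm_num)
  · rintro d ⟨V, _, G, hG, h, rfl⟩
    have := (upper hG h).2.1 (by norm_num)
    omega
  · exact mem_diameters H8 (by norm_num) (by norm_num) (by norm_num) (by norm_num)
  · rintro d ⟨V, _, G, hG, h, rfl⟩
    have := (upper hG h).2.2.1 (by norm_num)
    omega
  · have h := H_conservative (k - 3)
    have hk3 : k - 3 + 3 = k := by omega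
    rw [hk3] at h
    exact mem_diameters h (by omega) (by rw [if_neg (by omega)]; omega) (by omega) (by omega)
  · rintro d ⟨V, _, G, hG, h, rfl⟩
    have := (upper hG h).2.2.2 hk
    omega

end Pool.Agent.Results.MP_2cf482_co.Diameter
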